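import Pool.Agent.P.MP_4a087e_lc.Main

open Pool.Agent.P.MP_4a087e_lc

namespace Pool.Agent.Results.MP_4a087e_lc.LowerBound

theorem result : ∃ c : ℝ, 0 < c ∧ ∃ N : ℕ, ∀ n : ℕ, N ≤ n →
    c * Real.log n ^ (3 / 2 : ℝ) / Real.log (Real.log n) ^ (5 / 2 : ℝ) ≤ (ordDiam n : ℝ) :=
  main

end Pool.Agent.Results.MP_4a087e_lc.LowerBound
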