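import Pool.Agent.P.MP_4a087e_lc.UpC

open Pool.Agent.P.MP_4a087e_lc

namespace Pool.Agent.Results.MP_4a087e_lc.UpperBound

theorem result : ∃ C : ℝ, ∃ N : ℕ, ∀ n : ℕ, N ≤ n →
    (ordDiam n : ℝ) ≤ C * Real.log n ^ 2 / Real.log (Real.log n) :=
  Up.upper

end Pool.Agent.Results.MP_4a087e_lc.UpperBound
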